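import Mathlib
import Pool.Agent.H.MP_b30265_an.D

namespace Pool.Agent.Results.MP_b30265_an.PhaseMatters
open MeasureTheory Filter Topology

instance twoPiPos : Fact (0 < 2 * Real.pi) := ⟨Real.two_pi_pos⟩

noncomputable def finProd (lam : ℕ → ℕ) (a : ℕ → ℂ) (φ : ℕ → ℝ) (N : ℕ)
    (x : AddCircle (2 * Real.pi)) : ℝ :=
  ∏ n ∈ Finset.range N, (1 + (a n * (fourier (lam n) x * Complex.exp (Complex.I * φ n))).re)

def IsRiesz (lam : ℕ → ℕ) (a : ℕ → ℂ) (φ : ℕ → ℝ) (μ : Measure (AddCircle (2 * Real.pi))) : Prop :=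
  IsFiniteMeasure μ ∧ ∀ f : C(AddCircle (2 * Real.pi), ℝ),
    Tendsto (fun N => ∫ x, f x * finProd lam a φ N x ∂AddCircle.haarAddCircle) atTop
      (𝓝 (∫ x, f x ∂μ))

open Pool.Agent.H.MP_b30265_an in
theorem result : ∃ (lam : ℕ → ℕ) (a b : ℕ → ℂ) (φ : ℕ → ℝ)
    (μa μb μaφ μbφ : Measure (AddCircle (2 * Real.pi))),
    0 < lam 0 ∧ (∀ n, 3 * lam n ≤ lam (n + 1)) ∧ (∀ n, ‖a n‖ < 1) ∧ (∀ n, ‖b n‖ < 1) ∧
    IsRiesz lam a 0 μa ∧ IsRiesz lam b 0 μb ∧ IsRiesz lam a φ μaφ ∧ IsRiesz lam b φ μbφ ∧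
    μa ≪ μb ∧ ¬ μaφ ≪ μbφ := by
  have e0 : ∀ p, finProd l (fun n => r p 1 n) 0 = P l (r p 1) := by
    intro p; funext K x
    simp [finProd, P, c]
  have e1 : ∀ p, finProd l (fun n => r p 1 n) (fun n => if n % 2 = 0 then 0 else Real.pi) =
      P l (r p (-1)) := by
    intro p; funext K x
    refine Finset.prod_congr rfl fun n _ => ?_
    by_cases h : n % 2 = 0
    · simp [r, c, h]
    · simp only [r, if_neg h]
      rw [mul_comm Complex.I, Complex.exp_pi_mul_I]; simp [c]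
  obtain ⟨μ1, i1, h1⟩ := exists_lim l0 l3 fun n => (r_bd aa_bd (s := 1) (by simp) n).le
  obtain ⟨μ2, i2, h2⟩ := exists_lim l0 l3 fun n => (r_bd bb_bd (s := 1) (by simp) n).le
  obtain ⟨μ3, i3, h3⟩ := exists_lim l0 l3 fun n => (r_bd aa_bd (s := -1) (by simp) n).le
  obtain ⟨μ4, i4, h4⟩ := exists_lim l0 l3 fun n => (r_bd bb_bd (s := -1) (by simp) n).le
  refine ⟨l, fun n => r aa 1 n, fun n => r bb 1 n, fun n => if n % 2 = 0 then 0 else Real.pi,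
    μ1, μ2, μ3, μ4, l0, l3, fun n => ?_, fun n => ?_, ⟨inferInstance, ?_⟩, ⟨inferInstance, ?_⟩,
    ⟨inferInstance, ?_⟩, ⟨inferInstance, ?_⟩, ac h1 h2, nac h3 h4⟩
  · simpa using r_bd aa_bd (s := 1) (by simp) n
  · simpa using r_bd bb_bd (s := 1) (by simp) n
  · rw [e0]; exact h1
  · rw [e0]; exact h2
  · rw [e1]; exact h3
  · rw [e1]; exact h4

end Pool.Agent.Results.MP_b30265_an.PhaseMatters
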